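import Pool.Agent.N347.LA.Defs

set_option autoImplicit false

/-! LB/MOORE (project LB of helper347): the weak Moore bound. -/

namespace Pool.Agent.N11.LBMOORE

open Finset

/-- two different paths with the same ends give a short cycle -/
lemma exists_cycle {V : Type} (K : SimpleGraph V) {u w : V} (p q : K.Walk u w)
    (hp : p.IsPath) (hq : q.IsPath) (hne : p ≠ q) :
    ∃ (v : V) (c : K.Walk v v), c.IsCycle ∧ c.length ≤ p.length + q.length := by
  classical
  let H : SimpleGraph V := SimpleGraph.fromEdgeSet {e | e ∈ p.edges ∨ e ∈ q.edges}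
  have hpe : ∀ e ∈ p.edges, e ∈ H.edgeSet := by
    intro e he
    rw [SimpleGraph.edgeSet_fromEdgeSet]
    exact ⟨Or.inl he, fun h => K.not_isDiag_of_mem_edgeSet (p.edges_subset_edgeSet he) h⟩
  have hqe : ∀ e ∈ q.edges, e ∈ H.edgeSet := by
    intro e he
    rw [SimpleGraph.edgeSet_fromEdgeSet]
    exact ⟨Or.inr he, fun h => K.not_isDiag_of_mem_edgeSet (q.edges_subset_edgeSet he) h⟩
  have hHK : ∀ e ∈ H.edgeSet, e ∈ K.edgeSet := by
    intro e he
    rw [SimpleGraph.edgeSet_fromEdgeSet] at he
    rcases he.1 with h | h
    · exact p.edges_subset_edgeSet h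
    · exact q.edges_subset_edgeSet h
  have hnac : ¬ H.IsAcyclic := by
    intro hac
    have h1 := hac.path_unique ⟨p.transfer H hpe, hp.transfer hpe⟩
      ⟨q.transfer H hqe, hq.transfer hqe⟩
    have h2 : p.transfer H hpe = q.transfer H hqe := congrArg Subtype.val h1
    apply hne
    apply SimpleGraph.Walk.ext_support
    have h3 := congrArg SimpleGraph.Walk.support h2
    rwa [SimpleGraph.Walk.support_transfer, SimpleGraph.Walk.support_transfer] at h3
  unfold SimpleGraph.IsAcyclic at hnac
  push Not at hnac
  obtain ⟨v, c, hc⟩ := hnac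
  have hce : ∀ e ∈ c.edges, e ∈ K.edgeSet := fun e he => hHK e (c.edges_subset_edgeSet he)
  refine ⟨v, c.transfer K hce, hc.transfer hce, ?_⟩
  rw [SimpleGraph.Walk.length_transfer]
  have h1 : c.edges.toFinset ⊆ p.edges.toFinset ∪ q.edges.toFinset := by
    intro e he
    rw [List.mem_toFinset] at he
    have h2 := c.edges_subset_edgeSet he
    rw [SimpleGraph.edgeSet_fromEdgeSet] at h2
    rw [mem_union, List.mem_toFinset, List.mem_toFinset]
    exact h2.1
  have h2 := card_le_card h1
  rw [List.toFinset_card_of_nodup hc.edges_nodup, SimpleGraph.Walk.length_edges] at h2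
  have h3 := card_union_le p.edges.toFinset q.edges.toFinset
  have h4 := List.toFinset_card_le p.edges
  have h5 := List.toFinset_card_le q.edges
  rw [SimpleGraph.Walk.length_edges] at h4 h5
  omega

/-- LB/MOORE -/
theorem moore {V : Type} [Finite V] (K : SimpleGraph V) (h : ℕ)
    (hdeg : ∀ v, 3 ≤ (K.neighborSet v).ncard)
    (hg : ∀ (v : V) (c : K.Walk v v), c.IsCycle → 2 * h + 1 ≤ c.length) (v : V) :
    2 ^ h ≤ {u | K.Reachable v u}.ncard := by
  classical
  have := Fintype.ofFinite V
  -- uniqueness
  have huniq : ∀ (x y : V) (p q : K.Walk x y), p.IsPath → q.IsPath →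
      p.length + q.length ≤ 2 * h → p = q := by
    intro x y p q hp hq hl
    by_contra hne
    obtain ⟨z, c, hc, hcl⟩ := exists_cycle K p q hp hq hne
    have := hg z c hc
    omega
  let A : ℕ → Finset V := fun i => univ.filter (fun u => ∃ p : K.Walk v u, p.IsPath ∧ p.length = i)
  have hA : ∀ i ≤ h, 2 ^ i ≤ (A i).card := by
    intro i
    induction i with
    | zero =>
      intro _
      rw [pow_zero, Nat.one_le_iff_ne_zero, ← Nat.pos_iff_ne_zero, card_pos]
      exact ⟨v, mem_filter.2 ⟨mem_univ _, SimpleGraph.Walk.nil, SimpleGraph.Walk.IsPath.nil, rfl⟩⟩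
    | succ i ih =>
      intro hi
      have ih' := ih (by omega)
      have hch : ∀ u : V, ∃ p : (u ∈ A i → K.Walk v u), ∀ hu : u ∈ A i,
          (p hu).IsPath ∧ (p hu).length = i := by
        intro u
        by_cases hu : u ∈ A i
        · obtain ⟨p, hp⟩ := (mem_filter.1 hu).2
          exact ⟨fun _ => p, fun _ => hp⟩
        · exact ⟨fun h' => absurd h' hu, fun h' => absurd h' hu⟩
      choose P hP using hch
      let N : V → Finset V := fun u =>
        if hu : u ∈ A i then univ.filter (fun w => K.Adj u w ∧ w ∉ (P u hu).support) else ∅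
      have hN : ∀ u (hu : u ∈ A i) w, w ∈ N u ↔ (K.Adj u w ∧ w ∉ (P u hu).support) := by
        intro u hu w
        simp only [N, dif_pos hu, mem_filter, mem_univ, true_and]
      have hcat : ∀ u (hu : u ∈ A i) w (hw : w ∈ N u),
          ((P u hu).concat ((hN u hu w).1 hw).1).IsPath := by
        intro u hu w hw
        exact (hP u hu).1.concat ((hN u hu w).1 hw).2 _
      have hdisj : (↑(A i) : Set V).PairwiseDisjoint N := by
        intro u hu u' hu' hne
        rw [Function.onFun, Finset.disjoint_left]
        intro w hw hw'
        have h1 := huniq v w _ _ (hcat u hu w hw) (hcat u' hu' w hw') (by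
          rw [SimpleGraph.Walk.length_concat, SimpleGraph.Walk.length_concat, (hP u hu).2,
            (hP u' hu').2]
          omega)
        have h2 := congrArg SimpleGraph.Walk.penultimate h1
        rw [SimpleGraph.Walk.penultimate_concat, SimpleGraph.Walk.penultimate_concat] at h2
        exact hne h2
      have hsub : (A i).biUnion N ⊆ A (i + 1) := by
        intro w hw
        obtain ⟨u, hu, hwu⟩ := mem_biUnion.1 hw
        refine mem_filter.2 ⟨mem_univ _, _, hcat u hu w hwu, ?_⟩
        rw [SimpleGraph.Walk.length_concat, (hP u hu).2]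
      have h2 : ∀ u ∈ A i, 2 ≤ (N u).card := by
        intro u hu
        have h3 := hdeg u
        have h4 : (K.neighborSet u).ncard =
            (univ.filter (fun w => K.Adj u w)).card := by
          rw [← Set.ncard_coe_finset]
          congr 1
          ext w
          simp
        let B : Finset V := univ.filter (fun w => K.Adj u w ∧ w ∈ (P u hu).support)
        have h5 : univ.filter (fun w => K.Adj u w) ⊆ N u ∪ B := by
          intro w hw
          rw [mem_union, hN u hu]
          simp only [B, mem_filter, mem_univ, true_and] at hw ⊢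
          tauto
        have h6 : B.card ≤ 1 := by
          rw [card_le_one]
          have key : ∀ x ∈ B, x = (P u hu).getVert (i - 1) := by
            intro x hx
            simp only [B, mem_filter, mem_univ, true_and] at hx
            obtain ⟨hux, hxs⟩ := hx
            have hl : ((P u hu).dropUntil x hxs).length ≤ i := by
              have := (P u hu).length_dropUntil_le hxs
              rwa [(hP u hu).2] at this
            have h7 := huniq x u ((P u hu).dropUntil x hxs)
              (SimpleGraph.Walk.cons hux.symm SimpleGraph.Walk.nil)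
              ((hP u hu).1.dropUntil hxs) (by
                simp [SimpleGraph.Walk.cons_isPath_iff, hux.symm.ne]) (by
                simp only [SimpleGraph.Walk.length_cons, SimpleGraph.Walk.length_nil]
                omega)
            have h8 := congrArg SimpleGraph.Walk.length h7
            simp only [SimpleGraph.Walk.length_cons, SimpleGraph.Walk.length_nil] at h8
            have h9 : ((P u hu).takeUntil x hxs).length = i - 1 := by
              have := congrArg SimpleGraph.Walk.length ((P u hu).take_spec hxs)
              rw [SimpleGraph.Walk.length_append, (hP u hu).2] at this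
              omega
            rw [← h9]
            exact ((P u hu).getVert_length_takeUntil hxs).symm
          intro x hx y hy
          rw [key x hx, key y hy]
        have h7 := card_le_card h5
        have h8 := card_union_le (N u) B
        omega
      calc 2 ^ (i + 1) = 2 ^ i * 2 := pow_succ _ _
        _ ≤ (A i).card * 2 := Nat.mul_le_mul_right _ ih'
        _ ≤ ∑ u ∈ A i, (N u).card := by
          rw [← smul_eq_mul]
          exact card_nsmul_le_sum _ _ _ h2
        _ = ((A i).biUnion N).card := (card_biUnion (fun u hu u' hu' hne => hdisj hu hu' hne)).symm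
        _ ≤ (A (i + 1)).card := card_le_card hsub
  refine (hA h le_rfl).trans ?_
  rw [← Set.ncard_coe_finset]
  apply Set.ncard_le_ncard _ (Set.toFinite _)
  intro u hu
  obtain ⟨p, -⟩ := (mem_filter.1 (mem_coe.1 hu)).2
  exact ⟨p⟩

end Pool.Agent.N11.LBMOORE
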