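import Mathlib

/-!
The icosahedron is a 5-regular graph that is isomorphic to its 2-distance graph.
-/

namespace Pool.Agent.N11.MP_325f40_co_Icosahedron

/-- the 2-distance graph: `u`, `v` are adjacent iff their distance in `G` is exactly 2 -/
def twoDist {V : Type} (G : SimpleGraph V) : SimpleGraph V where
  Adj u v := G.Reachable u v ∧ G.dist u v = 2
  symm := ⟨fun u v h => ⟨h.1.symm, by rw [SimpleGraph.dist_comm]; exact h.2⟩⟩
  loopless := ⟨fun u h => by simpa using h.2⟩

/-- `G` is a self 2-distance graph -/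
def SelfTwoDist {V : Type} (G : SimpleGraph V) : Prop := Nonempty (twoDist G ≃g G)

/-- distance two means: distinct, non-adjacent, with a common neighbour -/
theorem dist_two_iff {V : Type} (G : SimpleGraph V) (u v : V) :
    (G.Reachable u v ∧ G.dist u v = 2) ↔ (u ≠ v ∧ ¬ G.Adj u v ∧ ∃ w, G.Adj u w ∧ G.Adj w v) := by
  constructor
  · rintro ⟨hr, h⟩
    refine ⟨?_, ?_, ?_⟩
    · rintro rfl; simp at h
    · intro ha
      have := SimpleGraph.dist_eq_one_iff_adj.2 ha
      omega
    · obtain ⟨p, hp⟩ := hr.exists_walk_length_eq_dist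
      rw [h] at hp
      cases p with
      | nil => simp at hp
      | cons h1 q =>
        cases q with
        | nil => simp at hp
        | cons h2 r =>
          cases r with
          | nil => exact ⟨_, h1, h2⟩
          | cons h3 r' => simp at hp
  · rintro ⟨hne, hna, w, h1, h2⟩
    have hr : G.Reachable u v := h1.reachable.trans h2.reachable
    refine ⟨hr, ?_⟩
    have hle : G.dist u v ≤ 2 := SimpleGraph.dist_le (SimpleGraph.Walk.cons h1 (SimpleGraph.Walk.cons h2 .nil))
    have h0 : G.dist u v ≠ 0 := by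
      intro h
      exact hne (hr.dist_eq_zero_iff.1 h)
    have h1' : G.dist u v ≠ 1 := fun h => hna (SimpleGraph.dist_eq_one_iff_adj.1 h)
    omega

/-- adjacency lists of the icosahedron: 0 and 11 are the poles, 1..5 the upper and 6..10 the lower
pentagon -/
def nb : Fin 12 → List (Fin 12) := ![[1, 2, 3, 4, 5], [0, 2, 5, 6, 10], [0, 1, 3, 6, 7],
  [0, 2, 4, 7, 8], [0, 3, 5, 8, 9], [0, 1, 4, 9, 10], [1, 2, 7, 10, 11], [2, 3, 6, 8, 11],
  [3, 4, 7, 9, 11], [4, 5, 8, 10, 11], [1, 5, 6, 9, 11], [6, 7, 8, 9, 10]]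

/-- the icosahedron -/
def ico : SimpleGraph (Fin 12) where
  Adj u v := v ∈ nb u
  symm := ⟨by decide⟩
  loopless := ⟨by decide⟩

instance : DecidableRel ico.Adj := fun u v => inferInstanceAs (Decidable (v ∈ nb u))

def f : Fin 12 → Fin 12 := ![0, 6, 8, 10, 7, 9, 5, 2, 4, 1, 3, 11]
def g : Fin 12 → Fin 12 := ![0, 9, 7, 10, 8, 6, 1, 4, 2, 5, 3, 11]

/-- The negated form of Q1: there are an odd `k` and a finite simple `k`-regular graph that is
isomorphic to its 2-distance graph. -/
theorem result : ∃ k : ℕ, Odd k ∧ ∃ n : ℕ, ∃ G : SimpleGraph (Fin n),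
    (∀ v, (G.neighborSet v).ncard = k) ∧ SelfTwoDist G := by
  refine ⟨5, by decide, 12, ico, ?_, ?_⟩
  · intro v
    have : (ico.neighborSet v) = ((nb v).toFinset : Set (Fin 12)) := by
      ext w; simp [SimpleGraph.neighborSet, ico]
    rw [this, Set.ncard_coe_finset]
    clear this
    revert v
    decide
  · refine ⟨⟨⟨f, g, by decide, by decide⟩, ?_⟩⟩
    intro u v
    have key : ∀ u v : Fin 12, ico.Adj (f u) (f v) ↔ 
      (u ≠ v ∧ ¬ ico.Adj u v ∧ ∃ w, ico.Adj u w ∧ ico.Adj w v) := by decide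
    exact (key u v).trans (dist_two_iff ico u v).symm

end Pool.Agent.N11.MP_325f40_co_Icosahedron
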