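import Mathlib

/-!
The Mermin-Peres magic square: the `4 × 4` matrices and the combinatorics of the two graphs with
24 vertices.
-/

set_option autoImplicit false

namespace Pool.Agent.N11.MS

/-- The six equations of the magic square (three rows, three columns): the `t`-th variable of the
equation `k`. The variables are numbered `0, ..., 8` row by row. -/
def var (k : Fin 6) (t : Fin 3) : Fin 9 :=
  if k.val < 3 then Fin.ofNat 9 (3 * k.val + t.val) else Fin.ofNat 9 (3 * t.val + (k.val - 3))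

/-- The right hand side of the magic square: only the last column has sum `1`. -/
def rhs (k : Fin 6) : Bool := k = 5

/-- The solution number `h` of the equation `x₀ + x₁ + x₂ = c` over the field with two elements:
`x₀`, `x₁` are the binary digits of `h`, and `x₂ = c + x₀ + x₁`. -/
def val (c : Bool) (h : Fin 4) (t : Fin 3) : Bool :=
  if t = 0 then h.val.testBit 1 else if t = 1 then h.val.testBit 0 else
    xor c (xor (h.val.testBit 1) (h.val.testBit 0))

lemma var_inj : ∀ (k : Fin 6) (t t' : Fin 3), var k t = var k t' → t = t' := by decide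

/-- The graph `G(M, b)` of the linear system with the equations of the magic square and with right
hand side `b`: the vertices are the pairs of an equation and a solution of this equation, two
vertices are adjacent iff they give different values to a common variable. -/
def graph (b : Fin 6 → Bool) : SimpleGraph (Fin 6 × Fin 4) where
  Adj v w := ∃ t t' : Fin 3, var v.1 t = var w.1 t' ∧ val (b v.1) v.2 t ≠ val (b w.1) w.2 t'
  symm := ⟨by
    rintro v w ⟨t, t', h1, h2⟩
    exact ⟨t', t, h1.symm, h2.symm⟩⟩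
  loopless := ⟨by
    rintro ⟨k, h⟩ ⟨t, t', h1, h2⟩
    exact h2 (by rw [var_inj k t t' h1])⟩

instance (b : Fin 6 → Bool) : DecidableRel (graph b).Adj := fun v w => by
  unfold graph
  infer_instance

/-- The nine observables `X⊗1, 1⊗X, X⊗X, 1⊗Z, Z⊗1, Z⊗Z, X⊗Z, Z⊗X, Y⊗Y`. -/
def obs : Fin 9 → Matrix (Fin 4) (Fin 4) ℤ :=
  ![!![0, 0, 1, 0; 0, 0, 0, 1; 1, 0, 0, 0; 0, 1, 0, 0],
    !![0, 1, 0, 0; 1, 0, 0, 0; 0, 0, 0, 1; 0, 0, 1, 0],
    !![0, 0, 0, 1; 0, 0, 1, 0; 0, 1, 0, 0; 1, 0, 0, 0],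
    !![1, 0, 0, 0; 0, -1, 0, 0; 0, 0, 1, 0; 0, 0, 0, -1],
    !![1, 0, 0, 0; 0, 1, 0, 0; 0, 0, -1, 0; 0, 0, 0, -1],
    !![1, 0, 0, 0; 0, -1, 0, 0; 0, 0, -1, 0; 0, 0, 0, 1],
    !![0, 0, 1, 0; 0, 0, 0, -1; 1, 0, 0, 0; 0, -1, 0, 0],
    !![0, 1, 0, 0; 1, 0, 0, 0; 0, 0, 0, -1; 0, 0, -1, 0],
    !![0, 0, 0, -1; 0, 0, 1, 0; 0, 1, 0, 0; -1, 0, 0, 0]]

/-- the sign of a bit -/
def sg (c : Bool) : ℤ := if c then -1 else 1

/-- four times the joint spectral projection of the equation `k` for the assignment `h` -/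
def NN (k : Fin 6) (h : Fin 4) : Matrix (Fin 4) (Fin 4) ℤ :=
  (1 + sg (val (rhs k) h 0) • obs (var k 0)) * (1 + sg (val (rhs k) h 1) • obs (var k 1))

/-- the bitwise sum -/
def xr (j i : Fin 4) : Fin 4 := Fin.ofNat 4 (Nat.xor j.val i.val)

lemma NN_sq : ∀ k h, NN k h * NN k h = 4 * NN k h := by decide +kernel

lemma NN_tr : ∀ k h, (NN k h).transpose = NN k h := by decide +kernel

lemma NN_sum : ∀ k, NN k 0 + NN k 1 + NN k 2 + NN k 3 = 4 := by decide +kernel

/-- the assignments `h` and `h'` (of the equations `k`, `k'`) disagree on a common variable -/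
def bad (k : Fin 6) (h : Fin 4) (k' : Fin 6) (h' : Fin 4) : Bool :=
  decide (∃ t t' : Fin 3, var k t = var k' t' ∧ val (rhs k) h t ≠ val (rhs k') h' t')

lemma NN_orth : ∀ k h k' h', bad k h k' h' = true → NN k h * NN k' h' = 0 := by decide +kernel

/-- the same relation -/
def same (k k' : Fin 6) (j j' i i' : Fin 4) : Bool :=
  (decide ((k = k' ∧ j = j') ↔ (k = k' ∧ i = i'))) &&
  (decide ((∃ t t' : Fin 3, var k t = var k' t' ∧ val (rhs k) j t ≠ val (rhs k') j' t') ↔
    (∃ t t' : Fin 3, var k t = var k' t' ∧ val false i t ≠ val false i' t')))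

lemma same_or_bad : ∀ k k' j j' i i', same k k' j j' i i' = true ∨
    bad k (xr j i) k' (xr j' i') = true := by decide +kernel

lemma xr_sum : ∀ j : Fin 4, ({xr j 0, xr j 1, xr j 2, xr j 3} : Finset (Fin 4)) = Finset.univ := by
  decide

lemma no_indep : ∀ j0 j1 j2 j3 j4 j5 : Fin 4, ∃ k k' : Fin 6, k ≠ k' ∧
    (graph rhs).Adj (k, ![j0, j1, j2, j3, j4, j5] k) (k', ![j0, j1, j2, j3, j4, j5] k') := by
  decide +kernel

end Pool.Agent.N11.MS
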