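import Pool.Agent.N59.TT.Stm

/-!
# Project TT (helper59), part COL (helper11): `TT` passes to directed colimits
-/

set_option autoImplicit false

namespace Pool.Agent.N11.TT_COL

open Pool.Agent.N59.TT

theorem vab_of_surjective {K L : Type} [Group K] [Group L] (q : K →* L)
    (hq : Function.Surjective q) (h : VAb K) : VAb L := by
  obtain ⟨A, hA, hc⟩ := h
  refine ⟨A.map q, ⟨fun h0 => hA.index_ne_zero ?_⟩, ?_⟩
  · have := A.index_map_dvd hq
    rw [h0] at this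
    exact Nat.eq_zero_of_zero_dvd this
  · rintro _ ⟨x, hx, rfl⟩ _ ⟨y, hy, rfl⟩
    rw [← map_mul, ← map_mul, hc x hx y hy]

theorem exists_upper {I : Type} [Preorder I] [Nonempty I] (hdir : ∀ i j : I, ∃ k, i ≤ k ∧ j ≤ k)
    (s : Finset I) : ∃ k, ∀ i ∈ s, i ≤ k := by
  classical
  induction s using Finset.induction_on with
  | empty => exact ⟨Classical.arbitrary I, by simp⟩
  | insert a s _ ih =>
    obtain ⟨k, hk⟩ := ih
    obtain ⟨l, h1, h2⟩ := hdir a k
    refine ⟨l, fun i hi => ?_⟩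
    rcases Finset.mem_insert.mp hi with rfl | hi
    · exact h1
    · exact (hk i hi).trans h2

theorem main : S_COL := by
  intro I _ _ hdir G _ f L _ g _ hcomp hgf hsurj hdie hTT K _ hfp hF2 φ
  classical
  obtain ⟨n, π, hπ, S, hS, hker⟩ := hfp.out
  -- lifts of the generators
  choose i x hx using fun a : Fin n => hsurj (φ (π (FreeGroup.of a)))
  obtain ⟨i0, hi0⟩ := exists_upper hdir (Finset.univ.image i)
  have hi0' : ∀ a, i a ≤ i0 := fun a => hi0 _ (Finset.mem_image_of_mem _ (Finset.mem_univ a))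
  let θ0 : FreeGroup (Fin n) →* G i0 := FreeGroup.lift fun a => f (i a) i0 (hi0' a) (x a)
  have hθ0 : (g i0).comp θ0 = φ.comp π := by
    ext a
    simp only [MonoidHom.comp_apply, θ0, FreeGroup.lift_apply_of, hgf, hx]
  have hθ0' : ∀ w, g i0 (θ0 w) = φ (π w) := fun w => DFunLike.congr_fun hθ0 w
  have hSker : ∀ s ∈ S, π s = 1 := by
    intro s hs
    rw [← MonoidHom.mem_ker, ← hker]
    exact Subgroup.subset_normalClosure hs
  have hj : ∀ s : FreeGroup (Fin n), ∃ j, ∃ h : i0 ≤ j, s ∈ S → f i0 j h (θ0 s) = 1 := by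
    intro s
    by_cases hs : s ∈ S
    · obtain ⟨j, h, hj⟩ := hdie i0 (θ0 s) (by rw [hθ0', hSker s hs, map_one])
      exact ⟨j, h, fun _ => hj⟩
    · exact ⟨i0, le_refl _, fun h => absurd h hs⟩
  choose j hj0 hj1 using hj
  obtain ⟨i1, hi1⟩ := exists_upper hdir (insert i0 (hS.toFinset.image j))
  have h01 : i0 ≤ i1 := hi1 _ (Finset.mem_insert_self _ _)
  have hj2 : ∀ s ∈ S, j s ≤ i1 := fun s hs =>
    hi1 _ (Finset.mem_insert_of_mem (Finset.mem_image_of_mem _ (hS.mem_toFinset.mpr hs)))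
  let θ1 : FreeGroup (Fin n) →* G i1 := (f i0 i1 h01).comp θ0
  have hθ1S : ∀ s ∈ S, θ1 s = 1 := by
    intro s hs
    show f i0 i1 h01 (θ0 s) = 1
    rw [← hcomp i0 (j s) i1 (hj0 s) (hj2 s hs), hj1 s hs, map_one]
  have hkerle : π.ker ≤ θ1.ker := by
    rw [← hker]
    exact Subgroup.normalClosure_le_normal fun s hs => hθ1S s hs
  let ψ : K →* G i1 := π.liftOfSurjective hπ ⟨θ1, hkerle⟩
  have hψ : ∀ w, ψ (π w) = θ1 w := fun w =>
    MonoidHom.liftOfRightInverse_comp_apply π _ (Function.rightInverse_surjInv hπ) ⟨θ1, hkerle⟩ w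
  have hgψ : ∀ k, g i1 (ψ k) = φ k := by
    intro k
    obtain ⟨w, rfl⟩ := hπ k
    rw [hψ w]
    show g i1 (f i0 i1 h01 (θ0 w)) = φ (π w)
    rw [hgf, hθ0']
  have hv : VAb ψ.range := hTT i1 K hfp hF2 ψ
  let q : ψ.range →* φ.range := ((g i1).comp ψ.range.subtype).codRestrict φ.range (by
    rintro ⟨_, k, rfl⟩
    exact ⟨k, (hgψ k).symm⟩)
  refine vab_of_surjective q ?_ hv
  rintro ⟨_, k, rfl⟩
  refine ⟨⟨ψ k, k, rfl⟩, Subtype.ext ?_⟩
  exact hgψ k

end Pool.Agent.N11.TT_COL
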