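import Mathlib

/-!
Existence of the universal unital C*-algebra generated by a family of elements with prescribed
relations (the relations are assumed to bound the norms, and to pass to products and to closed
unital star subalgebras).
-/

set_option autoImplicit false

noncomputable section

namespace Pool.Agent.N11.UC

open scoped ENNReal

section generic

variable {S : Type}

/-- the algebra homomorphism from the free algebra given by a family -/
def ext {B : Type} [CStarAlgebra B] (q : S → B) : FreeAlgebra ℂ S →ₐ[ℂ] B := FreeAlgebra.lift ℂ q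

lemma ext_ι {B : Type} [CStarAlgebra B] (q : S → B) (s : S) :
    ext q (FreeAlgebra.ι ℂ s) = q s := by
  unfold ext
  exact FreeAlgebra.lift_ι_apply q s

/-- adjoints of words -/
lemma exists_adj (τ : S → S) (x : FreeAlgebra ℂ S) : ∃ y : FreeAlgebra ℂ S,
    ∀ (B : Type) [CStarAlgebra B] (q : S → B), (∀ s, star (q s) = q (τ s)) →
      star (ext q x) = ext q y := by
  induction x using FreeAlgebra.induction with
  | grade0 r =>
    refine ⟨algebraMap ℂ _ (star r), fun B _ q _ => ?_⟩
    rw [AlgHom.commutes, AlgHom.commutes, algebraMap_star_comm]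
  | grade1 s =>
    refine ⟨FreeAlgebra.ι ℂ (τ s), fun B _ q hq => ?_⟩
    rw [ext_ι, ext_ι, hq]
  | mul a b ha hb =>
    obtain ⟨a', ha'⟩ := ha
    obtain ⟨b', hb'⟩ := hb
    refine ⟨b' * a', fun B _ q hq => ?_⟩
    rw [map_mul, map_mul, star_mul, ha' B q hq, hb' B q hq]
  | add a b ha hb =>
    obtain ⟨a', ha'⟩ := ha
    obtain ⟨b', hb'⟩ := hb
    refine ⟨a' + b', fun B _ q hq => ?_⟩
    rw [map_add, map_add, star_add, ha' B q hq, hb' B q hq]

variable {P : Type} [CStarAlgebra P] (τ : S → S) (V : S → P) (hτ : ∀ s, star (V s) = V (τ s))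

include hτ in
lemma star_mem_range {x : P} (hx : x ∈ (ext V).range) : star x ∈ (ext V).range := by
  obtain ⟨y, rfl⟩ := hx
  obtain ⟨z, hz⟩ := exists_adj τ y
  exact ⟨z, (hz P V hτ).symm⟩

/-- the algebra generated by the family -/
def galg : StarSubalgebra ℂ P where
  toSubalgebra := (ext V).range
  star_mem' := fun hx => star_mem_range τ V hτ hx

/-- its closure -/
def GS : StarSubalgebra ℂ P := (galg τ V hτ).topologicalClosure

instance : IsClosed (GS τ V hτ : Set P) := StarSubalgebra.isClosed_topologicalClosure _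

/-- the closure as a type -/
def GT : Type := GS τ V hτ

instance : CStarAlgebra (GT τ V hτ) := by
  exact (inferInstance : CStarAlgebra (GS τ V hτ))

/-- the inclusion -/
def inclG : GT τ V hτ →⋆ₐ[ℂ] P := (GS τ V hτ).subtype

lemma inclG_inj : Function.Injective (inclG τ V hτ) := Subtype.val_injective

lemma inclG_norm (x : GT τ V hτ) : ‖inclG τ V hτ x‖ = ‖x‖ := rfl

lemma V_mem (s : S) : V s ∈ GS τ V hτ := by
  apply StarSubalgebra.le_topologicalClosure
  refine ⟨FreeAlgebra.ι ℂ s, ?_⟩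
  change ext V (FreeAlgebra.ι ℂ s) = _
  rw [ext_ι]

/-- the family in the closure -/
def uG (s : S) : GT τ V hτ := (⟨V s, V_mem τ V hτ s⟩ : GS τ V hτ)

lemma incl_uG (s : S) : inclG τ V hτ (uG τ V hτ s) = V s := rfl

lemma incl_ext (x : FreeAlgebra ℂ S) : inclG τ V hτ (ext (uG τ V hτ) x) = ext V x := by
  induction x using FreeAlgebra.induction with
  | grade0 r => rw [AlgHom.commutes, AlgHom.commutes, AlgHomClass.commutes]
  | grade1 s => rw [ext_ι, ext_ι, incl_uG]
  | mul a b ha hb => rw [map_mul, map_mul, map_mul, ha, hb]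
  | add a b ha hb => rw [map_add, map_add, map_add, ha, hb]

lemma dense_uG : DenseRange (ext (uG τ V hτ)) := by
  intro a
  rw [Metric.mem_closure_iff]
  intro δ hδ
  have ha : (inclG τ V hτ a) ∈ closure ((galg τ V hτ : StarSubalgebra ℂ P) : Set P) := by
    rw [← StarSubalgebra.topologicalClosure_coe]
    exact a.2
  obtain ⟨_, ⟨x, rfl⟩, hx⟩ := Metric.mem_closure_iff.mp ha δ hδ
  refine ⟨_, ⟨x, rfl⟩, ?_⟩
  rw [dist_eq_norm, ← inclG_norm, map_sub, incl_ext, ← dist_eq_norm]
  exact hx

/-- the universal property of a family with the largest norms -/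
theorem lift_of_norm {B : Type} [CStarAlgebra B] (q : S → B) (hq : ∀ s, star (q s) = q (τ s))
    (hn : ∀ x : FreeAlgebra ℂ S, ‖ext q x‖ ≤ ‖ext V x‖) :
    ∃ φ : GT τ V hτ →⋆ₐ[ℂ] B, ∀ s, φ (uG τ V hτ s) = q s := by
  have hn' : ∀ x : FreeAlgebra ℂ S, ‖(ext q).toLinearMap x‖ ≤
      1 * ‖(ext (uG τ V hτ)).toLinearMap x‖ := by
    intro x
    rw [one_mul]
    have := hn x
    rw [← incl_ext τ V hτ, inclG_norm] at this
    exact this
  let φ : GT τ V hτ →L[ℂ] B :=
    (ext q).toLinearMap.extendOfNorm (ext (uG τ V hτ)).toLinearMap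
  have hφ : ∀ x, φ (ext (uG τ V hτ) x) = ext q x := by
    intro x
    exact LinearMap.extendOfNorm_eq (f := (ext q).toLinearMap)
      (e := (ext (uG τ V hτ)).toLinearMap) (dense_uG τ V hτ) ⟨1, hn'⟩ x
  have hmul : ∀ a b, φ (a * b) = φ a * φ b := by
    intro a b
    refine DenseRange.induction_on₂ (p := fun a b => φ (a * b) = φ a * φ b)
      (dense_uG τ V hτ) ?_ ?_ a b
    · exact isClosed_eq (by fun_prop) (by fun_prop)
    · intro x y
      rw [← map_mul, hφ, hφ, hφ, map_mul]
  have hstar : ∀ a, φ (star a) = star (φ a) := by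
    intro a
    refine DenseRange.induction_on (p := fun a => φ (star a) = star (φ a))
      (dense_uG τ V hτ) a ?_ ?_
    · exact isClosed_eq (by fun_prop) (by fun_prop)
    · intro x
      obtain ⟨y, hy⟩ := exists_adj τ x
      rw [hy _ _ (fun s => inclG_inj τ V hτ (by rw [map_star, incl_uG, incl_uG, hτ])), hφ, hφ,
        hy _ _ hq]
  have hone : φ 1 = 1 := by
    have h1 := hφ 1
    rw [map_one (ext (uG τ V hτ)), map_one (ext q)] at h1
    exact h1
  have hcom : ∀ r : ℂ, φ (algebraMap ℂ (GT τ V hτ) r) = algebraMap ℂ B r := by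
    intro r
    rw [Algebra.algebraMap_eq_smul_one, Algebra.algebraMap_eq_smul_one, map_smul, hone]
  refine ⟨{ toFun := φ
            map_one' := hone
            map_mul' := hmul
            map_zero' := map_zero φ
            map_add' := map_add φ
            commutes' := hcom
            map_star' := hstar }, ?_⟩
  intro s
  have := hφ (FreeAlgebra.ι ℂ s)
  rw [ext_ι, ext_ι] at this
  exact this

end generic

section exist

/-- the product of a family of nonzero C*-algebras -/
@[reducible] def lpC (I : Type) (B : I → Type) [∀ i, CStarAlgebra (B i)] [∀ i, Nontrivial (B i)] :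
    CStarAlgebra (lp B ∞) where

variable {S : Type} (R : ∀ (B : Type) [CStarAlgebra B], (S → B) → Prop) (τ : S → S)

/-- The relations `R` define a universal C*-algebra. -/
structure Good : Prop where
  star_eq : ∀ (B : Type) [CStarAlgebra B] (q : S → B), R B q → ∀ s, star (q s) = q (τ s)
  bdd : ∀ s, ∃ C : ℝ, ∀ (B : Type) [CStarAlgebra B] (q : S → B), R B q → ‖q s‖ ≤ C
  prod : ∀ (I : Type) (B : I → Type) [∀ i, CStarAlgebra (B i)] [∀ i, Nontrivial (B i)]
    (q : S → lp B ∞), (∀ i, R (B i) fun s => (q s : ∀ i, B i) i) →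
      @R (lp B ∞) (lpC I B) q
  sub : ∀ (A B : Type) [CStarAlgebra A] [CStarAlgebra B] (φ : A →⋆ₐ[ℂ] B),
    Function.Injective φ → ∀ q : S → A, R B (fun s => φ (q s)) → R A q

/-- a family with the relations in a nonzero C*-algebra -/
structure RepD : Type 1 where
  B : Type
  inst : CStarAlgebra B
  nt : Nontrivial B
  q : S → B
  h : R B q

instance (r : RepD R) : CStarAlgebra r.B := r.inst
instance (r : RepD R) : Nontrivial r.B := r.nt

variable {R τ} (hR : Good R τ)

include hR in
lemma ext_bdd (x : FreeAlgebra ℂ S) : ∃ C : ℝ, 0 ≤ C ∧ ∀ (B : Type) [CStarAlgebra B]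
    [Nontrivial B] (q : S → B), R B q → ‖ext q x‖ ≤ C := by
  induction x using FreeAlgebra.induction with
  | grade0 r =>
    refine ⟨‖r‖, norm_nonneg _, fun B _ _ q _ => ?_⟩
    rw [AlgHom.commutes, norm_algebraMap']
  | grade1 s =>
    obtain ⟨C, hC⟩ := hR.bdd s
    refine ⟨max C 0, le_max_right _ _, fun B _ _ q hq => ?_⟩
    rw [ext_ι]
    exact (hC B q hq).trans (le_max_left _ _)
  | mul a b ha hb =>
    obtain ⟨C, hC0, hC⟩ := ha
    obtain ⟨D, hD0, hD⟩ := hb
    refine ⟨C * D, mul_nonneg hC0 hD0, fun B _ _ q hq => ?_⟩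
    rw [map_mul]
    exact (norm_mul_le _ _).trans (mul_le_mul (hC B q hq) (hD B q hq) (norm_nonneg _) hC0)
  | add a b ha hb =>
    obtain ⟨C, hC0, hC⟩ := ha
    obtain ⟨D, hD0, hD⟩ := hb
    refine ⟨C + D, add_nonneg hC0 hD0, fun B _ _ q hq => ?_⟩
    rw [map_add]
    exact (norm_add_le _ _).trans (add_le_add (hC B q hq) (hD B q hq))

include hR in
lemma exists_near (hne : Nonempty (RepD R)) (x : FreeAlgebra ℂ S) (n : ℕ) : ∃ r : RepD R,
    ∀ (B : Type) [CStarAlgebra B] (q : S → B), R B q →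
      ‖ext q x‖ ≤ ‖ext r.q x‖ + 1 / (n + 1) := by
  obtain ⟨C, _, hC⟩ := ext_bdd hR x
  have hbdd : BddAbove (Set.range fun r : RepD R => ‖ext r.q x‖) := by
    refine ⟨C, ?_⟩
    rintro _ ⟨r, rfl⟩
    exact hC r.B r.q r.h
  have hpos : (0 : ℝ) < 1 / (n + 1) := by positivity
  obtain ⟨r, hr⟩ := exists_lt_of_lt_ciSup (f := fun r : RepD R => ‖ext r.q x‖)
    (show (⨆ r : RepD R, ‖ext r.q x‖) - 1 / (n + 1) < ⨆ r : RepD R, ‖ext r.q x‖ by linarith)
  refine ⟨r, fun B _ q hq => ?_⟩
  rcases subsingleton_or_nontrivial B with h | h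
  · rw [Subsingleton.elim (ext q x) 0, norm_zero]
    have := norm_nonneg (ext r.q x)
    linarith
  · have h1 : ‖ext q x‖ ≤ ⨆ r : RepD R, ‖ext r.q x‖ :=
      le_ciSup hbdd (⟨B, inferInstance, h, q, hq⟩ : RepD R)
    linarith

/-- **Existence of universal C*-algebras.** -/
theorem exists_universal (hR : Good R τ) (hne : Nonempty (RepD R)) :
    ∃ (A : Type) (_ : CStarAlgebra A) (p : S → A), R A p ∧
      Dense (Algebra.adjoin ℂ (Set.range p) : Set A) ∧
      ∀ (B : Type) [CStarAlgebra B] (q : S → B), R B q →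
        ∃ φ : A →⋆ₐ[ℂ] B, ∀ s, φ (p s) = q s := by
  classical
  choose near hnear using fun i : FreeAlgebra ℂ S × ℕ => exists_near hR hne i.1 i.2
  let Bf : FreeAlgebra ℂ S × ℕ → Type := fun i => (near i).B
  let inst1 : ∀ i, CStarAlgebra (Bf i) := fun i => (near i).inst
  have inst2 : ∀ i, Nontrivial (Bf i) := fun i => (near i).nt
  let _ : CStarAlgebra (lp Bf ∞) := lpC _ Bf
  choose C hC using hR.bdd
  let V : S → lp Bf ∞ := fun s => ⟨fun i => ((near i).q s : Bf i), memℓp_infty ⟨C s, by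
      rintro _ ⟨i, rfl⟩
      exact hC s _ _ (near i).h⟩⟩
  have hV : R (lp Bf ∞) V := hR.prod _ Bf V fun i => (near i).h
  have hτ : ∀ s, star (V s) = V (τ s) := hR.star_eq _ V hV
  have hcoord : ∀ (x : FreeAlgebra ℂ S) (i : FreeAlgebra ℂ S × ℕ),
      (ext V x : ∀ i, Bf i) i = ext (near i).q x := by
    intro x i
    induction x using FreeAlgebra.induction with
    | grade0 r => rw [AlgHom.commutes, AlgHom.commutes]; rfl
    | grade1 s => rw [ext_ι, ext_ι]
    | mul a b ha hb => rw [map_mul, map_mul, ← ha, ← hb]; rfl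
    | add a b ha hb => rw [map_add, map_add, ← ha, ← hb]; rfl
  have hmax : ∀ (B : Type) [CStarAlgebra B] (q : S → B), R B q →
      ∀ x : FreeAlgebra ℂ S, ‖ext q x‖ ≤ ‖ext V x‖ := by
    intro B _ q hq x
    refine le_of_forall_pos_le_add fun ε hε => ?_
    obtain ⟨n, hn⟩ := exists_nat_one_div_lt hε
    have h1 := hnear (x, n) B q hq
    have h2 : ‖(ext V x : ∀ i, Bf i) (x, n)‖ ≤ ‖ext V x‖ :=
      lp.norm_apply_le_norm (by simp) _ _
    rw [hcoord] at h2
    simp only at h1
    linarith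
  refine ⟨GT τ V hτ, inferInstance, uG τ V hτ, ?_, ?_, ?_⟩
  · exact hR.sub _ _ (inclG τ V hτ) (inclG_inj τ V hτ) _ hV
  · have h1 : (Algebra.adjoin ℂ (Set.range (uG τ V hτ))) = (ext (uG τ V hτ)).range := by
      unfold ext
      exact Algebra.adjoin_range_eq_range_freeAlgebra_lift _ _ (uG τ V hτ)
    rw [h1]
    exact dense_uG τ V hτ
  · intro B _ q hq
    exact lift_of_norm τ V hτ q (hR.star_eq B q hq) (hmax B q hq)

end exist

end Pool.Agent.N11.UC
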